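import Pool.Agent.U536.CF.TI
import Pool.Agent.Results.MP_b15c9e_ag.SymmetricPowers

/-!
# Dynamical Mordell-Lang for the symmetric powers of quadratic rational functions whose coefficients have large common factors
with values of multiplicative functions

Let `F_q`, `q` in the set of the six indices of the coefficients of a quadratic rational function, be positive
multiplicative functions of at most polynomial growth such that `F_q p ≤ M p` for the large primes `p`, with different values
at different large primes; for example Euler's function or the sum of the divisors. Let `b < 1` and `0 ≤ c < 2 b - 1`. For all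
families `m` of six integers in `[1, N]` but `N^6 exp (-(log N)^c)`, for EVERY family `w` of integers
`w_q ≥ exp ((log N)^b)` such that `gcd(w_q, F_q(m_q)) ≥ w_q'^ρ` for all indices and all integers `a_q ≠ 0`, `e_q` of absolute value
at most `w_l^η` for some `l`, all the symmetric powers `Sym^n f : ℙ^n → ℙ^n`, `n ≥ 1`, of the quadratic rational function `f` with
the coefficients `a_q w_q + e_q` are endomorphisms of `ℙ^n` with the full Dynamical Mordell-Lang property: all complex points, all
closed subvarieties over `ℂ`. Here `ρ < 1` and `η > 0` are absolute constants. The families `w` include all families of large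
divisors `w_q` of the `F_q(m_q)` of comparable size, and the `a_q` give all choices of signs.

Proof. But for few exceptional `m ≤ N`, the number of `m` with `g ∣ F(m)` is at most `N τ_J(g) / g` up to a factor
`exp ((log N)^s)`, `J = (log N)^a`, `a < s < b`, for all `g`: write `m = k' u` with `u` squarefree and composed of primes larger
than `N^(1/J)`, `k' ≤ exp (4 (log N)^a)`. The families near exceptional families have a power saving, and so have the families of
the large divisors of their entries; the inequality `τ_J^q ≤ τ_K` for `K ≥ J^q` with Hölder's inequality for families bounds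
the sum of `∏ τ_J(g_i) / g_i` over these. The count of the exceptional coefficient vectors in cubes is
the theorem `SymmetricPowers` of this page in the starting library; the large divisors of the values of multiplicative
functions form a set of density zero and are taken with very large multiplicities, and so the theorem does not follow from
that count alone.
-/

set_option autoImplicit false

namespace Pool.Agent.Results.MP_b15c9e_ag.CommonFactors

open MvPolynomial
open Pool.Agent.N733.TG (LM lm_totient lm_sigma)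
open Pool.Agent.U536.CF (CommonI commonI_of_dvd common_near_I cube_bound)
open Pool.Agent.Results.MP_b15c9e_ag.SymmetricPowers (IsEndo IsSymPower DML)

/-- all the symmetric powers of the quadratic rational function with coefficients `v` are endomorphisms with the full Dynamical
Mordell-Lang property -/
def AllSymPowers (v : Fin 2 × Fin 3 → ℤ) : Prop :=
  ∀ n : ℕ, 1 ≤ n → ∃ F : Fin (n + 1) → MvPolynomial (Fin (n + 1)) ℂ, IsEndo 2 F ∧ IsSymPower v F ∧ DML F

/-- **Dynamical Mordell-Lang for the symmetric powers of quadratic rational functions whose coefficients have large common factors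
with values of multiplicative functions.** There are `η > 0` and `0 < ρ < 1` such that the following holds. Let the `F_q` be
multiplicative and positive, of at most polynomial growth, with `F_q p ≤ M p` at the large primes, and injective there. Let
`b < 1` and `0 ≤ c < 2 b - 1`. For all large `N`, for all families `m` of six integers in `[1, N]` but at most
`N^6 exp (-(log N)^c)`, for EVERY family `w` of integers `w_q ≥ exp ((log N)^b)` such that `gcd(w_q, F_q(m_q)) ≥ w_q'^ρ` for all
indices and all integers `a_q ≠ 0`, `e_q` with `|a_q|, |e_q| ≤ w_l^η` for some `l`, all the symmetric powers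
`Sym^n f : ℙ^n → ℙ^n`, `n ≥ 1`, of the quadratic rational function `f` with the coefficients `a_q w_q + e_q` are endomorphisms of
`ℙ^n` with the full Dynamical Mordell-Lang property (all complex points, all closed subvarieties over `ℂ`). Families of
divisors `w_q ≥ exp ((log N)^b)` of the `F_q(m_q)` with `w_q'^ρ ≤ w_q` are such families. Euler's function and the sum of the
divisors are examples of such functions. -/
theorem result :
    (∃ η ρ : ℝ, 0 < η ∧ 0 < ρ ∧ ρ < 1 ∧ ∀ F : Fin 2 × Fin 3 → ℕ → ℕ, (∀ q, LM (F q)) →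
      ∀ b c : ℝ, b < 1 → 0 ≤ c → c < 2 * b - 1 → ∃ N₀ : ℕ, ∀ N : ℕ, N₀ ≤ N →
      ({m : Fin 2 × Fin 3 → ℕ | (∀ q, 1 ≤ m q ∧ m q ≤ N) ∧ ¬ ∀ w : Fin 2 × Fin 3 → ℕ, CommonI F b ρ N m w →
        ∀ a e : Fin 2 × Fin 3 → ℤ,
        (∃ l, ∀ q, a q ≠ 0 ∧ |(a q : ℝ)| ≤ (w l : ℝ) ^ η ∧ |(e q : ℝ)| ≤ (w l : ℝ) ^ η) →
          AllSymPowers (fun q => a q * (w q : ℤ) + e q)}.ncard : ℝ) ≤ (N : ℝ) ^ 6 * Real.exp (-(Real.log N ^ c))) ∧
    (LM Nat.totient ∧ LM (fun m => ∑ d ∈ m.divisors, d)) ∧
    ∀ (F : Fin 2 × Fin 3 → ℕ → ℕ) (b ρ : ℝ) (N : ℕ) (m w : Fin 2 × Fin 3 → ℕ),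
      (∀ q, Real.exp (Real.log N ^ b) ≤ (w q : ℝ)) → (∀ q, w q ∣ F q (m q)) →
      (∀ q q', (w q' : ℝ) ^ ρ ≤ (w q : ℝ)) → CommonI F b ρ N m w := by
  classical
  refine ⟨?_, ⟨lm_totient, lm_sigma⟩, fun F b ρ N m w h1 h2 h3 => commonI_of_dvd h1 h2 h3⟩
  have hcard : Fintype.card (Fin 2 × Fin 3) = 6 := by simp
  obtain ⟨δ₀, hδ₀, H₀, h⟩ := SymmetricPowers.result
  obtain ⟨δ, hδ⟩ : ∃ δ, δ = min δ₀ 1 := ⟨_, rfl⟩
  have hδ0 : 0 < δ := by rw [hδ]; exact lt_min hδ₀ one_pos
  have hδ1 : δ ≤ 1 := by rw [hδ]; exact min_le_right _ _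
  have hδδ : δ ≤ δ₀ := by rw [hδ]; exact min_le_left _ _
  obtain ⟨η, ρ, hη, hρ0, hρ1, hkeep⟩ := common_near_I (ι := Fin 2 × Fin 3) hδ0
  refine ⟨η, ρ, hη, hρ0, hρ1, fun F hF b c hb hc hcb => ?_⟩
  obtain ⟨E, hE⟩ : ∃ E : Set (Fin 2 × Fin 3 → ℤ), E = {v | ¬ AllSymPowers v} := ⟨_, rfl⟩
  obtain ⟨N₀, hN₀⟩ := hkeep F hF
    (3 ^ Fintype.card (Fin 2 × Fin 3) + (2 * (max H₀ 1 : ℕ) + 1 : ℝ) ^ Fintype.card (Fin 2 × Fin 3)) b c hb hc hcb
  refine ⟨N₀, fun N hN => ?_⟩
  have key := hN₀ N hN E (fun T hT => cube_bound hδ1 (max H₀ 1) E (fun H hH => ?_) T hT)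
  · rw [hcard] at key
    refine le_trans (le_of_eq ?_) key
    congr 2
    ext m
    simp only [Set.mem_ofPred_eq, hE, not_not]
  · have h1 := h H ((le_max_left H₀ 1).trans hH) 0
    have hH1 : (1 : ℝ) ≤ H := by exact_mod_cast (le_max_right H₀ 1).trans hH
    have h2 : ({α : Fin 2 × Fin 3 → ℤ | (∀ i, |α i| ≤ (H : ℤ)) ∧ α ∈ E}.ncard : ℝ) ≤
        (H : ℝ) ^ (-δ₀) * (2 * H + 1 : ℝ) ^ 6 := by
      refine le_trans (le_of_eq ?_) h1
      rw [← Nat.card_coe_set_eq]
      congr 1
      apply Nat.card_congr
      apply Equiv.subtypeEquivRight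
      intro v
      simp only [Set.mem_ofPred_eq, hE, Pi.zero_apply, sub_zero]
      rfl
    rw [hcard]
    exact h2.trans (mul_le_mul_of_nonneg_right (Real.rpow_le_rpow_of_exponent_le hH1 (by linarith)) (by positivity))

end Pool.Agent.Results.MP_b15c9e_ag.CommonFactors
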