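import Pool.Agent.U100.MQ.Master

/-!
# MP_b15c9e_ag: the Dynamical Mordell-Lang property and moved ramification

Let `σ` be a field automorphism of `ℂ`, with fixed field `K`, let `Φ` be a nonconstant endomorphism of
`ℙ^N` over `K` and `X ⊆ ℙ^N` a closed set with `Φ(X) ⊆ X` (for instance `X = ℙ^N`). A hypersurface
`G = 0` with finitely many conjugates `σ^m G = 0`, `m ≥ 0`, is moved by `σ` on `X`, outside the
closed set `B`, if all common points in `X` of its conjugates are in `B`. We call `Φ`
*critically finite on `X` outside `B`, up to moved ramification* if there are finitely many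
hypersurfaces, moved by `σ` on `X` outside `B`, and closed sets

  `X = D_0, D_1, …, D_k = B` with `Φ(D_i) ⊆ D_i` for `i < k`, such that for all `i < k` a
fixed iterate of `Φ` maps all critical points in `D_i` to `D_{i+1}`, with the exception of the points
in `B` and on the given hypersurfaces, and all points of `X` with an image in `B` are in `B`.

**Theorem.** Then for all closed sets `V ⊆ ℙ^N` over `ℂ` and all `α ∈ X(K)` outside `B`
the return set of `α` is a finite union of arithmetic progressions.

For `k = 1`, `X = ℙ^N` and `B = ∅` the condition says that the critical points lie on finitely many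
hypersurfaces, each with finitely many conjugates having no common point; this condition is stable
under composition. Without
hypersurfaces (and with `σ = 1`) the condition is strict critical finiteness outside `B`
(the hand-in `StrictlyCriticallyFinite`).

The proof. All data are over a finitely generated ring `O`, stable under `σ`. By Hilbert's
irreducibility theorem and Chebotarev's density theorem there are homomorphisms from `O` to the
algebraic closure of `𝔽_p`, with a nonzero value at a given nonzero element, on which `σ` acts as the Frobenius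
map, and `O^σ` (better: its elements which we need) embeds in `ℤ_p`, compatibly with the reduction.
The reduction of the orbit of `α` is in `ℙ^N(𝔽_p)`. If it contains a point of `G = 0` then, by
Frobenius, this is a point of all conjugates, hence (Nullstellensatz) in `B`. But the orbit does
not meet `B` modulo `p`. So the periodic part of the orbit modulo `p` contains no critical
point, and `p`-adic interpolation applies.
-/

set_option autoImplicit false

open MvPolynomial

namespace Pool.Agent.Results.MP_b15c9e_ag.MovedRamification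

/-- The self-map of `ℂ^(N+1)` given by `N + 1` polynomials. -/
noncomputable def cone {N : ℕ} (F : Fin (N + 1) → MvPolynomial (Fin (N + 1)) ℂ)
    (x : Fin (N + 1) → ℂ) : Fin (N + 1) → ℂ :=
  fun i => eval x (F i)

/-- `F` is a nonconstant endomorphism of `ℙ^N`: forms of a common positive degree without common
zero but `0`. -/
def IsEndo {N : ℕ} (F : Fin (N + 1) → MvPolynomial (Fin (N + 1)) ℂ) : Prop :=
  (∃ d : ℕ, 0 < d ∧ ∀ i, (F i).IsHomogeneous d) ∧
    ∀ x : Fin (N + 1) → ℂ, (∀ i, eval x (F i) = 0) → x = 0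

/-- `x` represents a point of `ℙ^N` at which the Jacobian determinant of `F` vanishes. -/
def Critical {N : ℕ} (F : Fin (N + 1) → MvPolynomial (Fin (N + 1)) ℂ)
    (x : Fin (N + 1) → ℂ) : Prop :=
  x ≠ 0 ∧ (Matrix.of fun i j => eval x (pderiv j (F i))).det = 0

/-- `x` represents a point of the closed subset of `ℙ^N` given by the forms in `D`. -/
def On {N : ℕ} (D : Finset (MvPolynomial (Fin (N + 1)) ℂ)) (x : Fin (N + 1) → ℂ) : Prop :=
  x ≠ 0 ∧ ∀ H ∈ D, eval x H = 0

/-- The polynomial with the coefficients `σ(c)`, `c` the coefficients of `G`. -/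
noncomputable def conj {N : ℕ} (σ : ℂ ≃+* ℂ) (G : MvPolynomial (Fin (N + 1)) ℂ) :
    MvPolynomial (Fin (N + 1)) ℂ := map (σ : ℂ →+* ℂ) G

/-- All members of `D` are forms with finitely many conjugates under the powers of `σ`. -/
def Forms {N : ℕ} (σ : ℂ ≃+* ℂ) (D : Finset (MvPolynomial (Fin (N + 1)) ℂ)) : Prop :=
  ∀ G ∈ D, (∃ e : ℕ, G.IsHomogeneous e) ∧ ∃ m : ℕ, 0 < m ∧ (conj σ)^[m] G = G

/-- `F` is critically finite on the closed set `D 0` outside the closed set `D k`, up to critical points
on the hypersurfaces `G = 0`, `G ∈ s`, which are moved by `σ` on `D 0` outside `D k`; and `α` is in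
`D 0` and outside `D k`. -/
def MovedCriticallyFinite {N : ℕ} (σ : ℂ ≃+* ℂ)
    (F : Fin (N + 1) → MvPolynomial (Fin (N + 1)) ℂ) (α : Fin (N + 1) → ℂ) : Prop :=
  ∃ (s : Finset (MvPolynomial (Fin (N + 1)) ℂ)) (k : ℕ)
    (D : ℕ → Finset (MvPolynomial (Fin (N + 1)) ℂ)),
    Forms σ s ∧ (∀ i ≤ k, Forms σ (D i)) ∧
    -- the hypersurfaces are moved on `D 0` outside `D k`
    (∀ G ∈ s, ∀ x, On (D 0) x → (∀ m : ℕ, eval x ((conj σ)^[m] G) = 0) → On (D k) x) ∧
    -- the filtration
    (∀ i < k, ∀ x, On (D i) x → On (D i) (cone F x)) ∧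
    (∀ i < k, ∃ l : ℕ, ∀ x, On (D i) x → Critical F x →
      On (D k) x ∨ (∃ G ∈ s, eval x G = 0) ∨ On (D (i + 1)) ((cone F)^[l] x)) ∧
    -- `D k` is completely invariant in `D 0`
    (∀ x, On (D 0) x → On (D k) (cone F x) → On (D k) x) ∧
    -- the point
    On (D 0) α ∧ ¬ On (D k) α

open Pool.Agent.U100.MQ in
/-- the cone over a closed set -/
theorem cone_van {N : ℕ} (D : Finset (MvPolynomial (Fin (N + 1)) ℂ)) :
    ∃ D' : Finset (MvPolynomial (Fin (N + 1)) ℂ),
      (∀ x, Van D' x ↔ x = 0 ∨ On D x) ∧ ∀ (σ : ℂ ≃+* ℂ), Forms σ D → ∀ G ∈ D', FinConj σ G := by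
  classical
  refine ⟨Finset.univ.biUnion fun a => D.image fun H => X a * H, ?_, ?_⟩
  · intro x
    constructor
    · intro h
      by_cases hx : x = 0
      · exact Or.inl hx
      · refine Or.inr ⟨hx, fun H hH => ?_⟩
        obtain ⟨a, ha⟩ := Function.ne_iff.1 hx
        have h1 := h (X a * H) (Finset.mem_biUnion.2 ⟨a, Finset.mem_univ a,
          Finset.mem_image.2 ⟨H, hH, rfl⟩⟩)
        rw [map_mul, eval_X, mul_eq_zero] at h1
        exact h1.resolve_left ha
    · intro h G hG
      rw [Finset.mem_biUnion] at hG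
      obtain ⟨a, -, hG⟩ := hG
      obtain ⟨H, hH, rfl⟩ := Finset.mem_image.1 hG
      rw [map_mul, eval_X]
      rcases h with rfl | h
      · rw [Pi.zero_apply, zero_mul]
      · rw [h.2 H hH, mul_zero]
  · intro σ hσ G hG
    rw [Finset.mem_biUnion] at hG
    obtain ⟨a, -, hG⟩ := hG
    obtain ⟨H, hH, rfl⟩ := Finset.mem_image.1 hG
    obtain ⟨m, hm, h⟩ := (hσ H hH).2
    refine ⟨m, hm, ?_⟩
    have h1 : ∀ m : ℕ, (Pool.Agent.U100.MQ.conj σ)^[m] (X a * H) =
        X a * (MovedRamification.conj σ)^[m] H := by
      intro m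
      induction m with
      | zero => rfl
      | succ m ih =>
        rw [Function.iterate_succ_apply', Function.iterate_succ_apply', ih,
          Pool.Agent.U100.MQ.conj, map_mul, map_X]
        rfl
    rw [h1, h]

/-- **Theorem.** Let `F` be a nonconstant endomorphism of `ℙ^N` over the fixed field of `σ`,
critically finite on a closed set which contains the point `α` over the fixed field, up to
ramification moved by `σ`, outside a completely invariant closed set which does not contain `α`. Then for every closed `V ⊆ ℙ^N`, given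
by a set `S` of forms over `ℂ`, the return set is a finite union of arithmetic progressions. -/
theorem result (σ : ℂ ≃+* ℂ) (N : ℕ) (F : Fin (N + 1) → MvPolynomial (Fin (N + 1)) ℂ)
    (hF : IsEndo F) (hσ : ∀ i, conj σ (F i) = F i) (α : Fin (N + 1) → ℂ) (hα : α ≠ 0)
    (hfix : ∀ i, σ (α i) = α i) (h : MovedCriticallyFinite σ F α)
    (S : Set (MvPolynomial (Fin (N + 1)) ℂ)) (_ : ∀ g ∈ S, ∃ e : ℕ, g.IsHomogeneous e) :
    ∃ T : Finset (ℕ × ℕ), {n : ℕ | ∀ g ∈ S, eval ((cone F)^[n] α) g = 0} =
      {n : ℕ | ∃ q ∈ T, ∃ m : ℕ, n = q.1 * m + q.2} := by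
  classical
  obtain ⟨⟨d, hd, hdF⟩, hF0⟩ := hF
  obtain ⟨s, k, D, hs, hD, hmov, hinv, hcr, htot, hD0, hαD⟩ := h
  choose D' hD' hD'c using fun i => cone_van (D i)
  have hF00 : cone F 0 = 0 := by
    funext i
    have h1 := Pool.Agent.H936R2.eval_scale (F i) d (hdF i) 0 (0 : Fin (N + 1) → ℂ)
    have h2 : (fun i => (0 : ℂ) * (0 : Fin (N + 1) → ℂ) i) = 0 := by
      funext i
      rw [zero_mul]
      rfl
    rw [zero_pow hd.ne', zero_mul, h2] at h1
    exact h1
  have hgood : Pool.Agent.U100.MQ.GoodAt σ F α := by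
    refine ⟨s, k, D', ?_, fun i hi => hD'c i σ (hD i hi), (hD' 0 α).2 (Or.inr hD0), ?_, ?_, ?_, ?_,
      ?_⟩
    · intro G hG
      exact (hs G hG).2
    · intro i hi x hx
      rw [hD'] at hx ⊢
      rcases hx with rfl | hx
      · exact Or.inl hF00
      · exact Or.inr (hinv i hi x hx)
    · intro i hi
      obtain ⟨l, hl⟩ := hcr i hi
      refine ⟨l, fun x hx hc => ?_⟩
      rw [hD'] at hx
      rw [hD', hD']
      by_cases h0 : x = 0
      · exact Or.inl (Or.inl h0)
      · rcases hl x (hx.resolve_left h0) ⟨h0, hc⟩ with h1 | h1 | h1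
        · exact Or.inl (Or.inr h1)
        · exact Or.inr (Or.inl h1)
        · exact Or.inr (Or.inr (Or.inr h1))
    · intro x hx0 hx
      rw [hD'] at hx0 hx ⊢
      by_cases h0 : x = 0
      · exact Or.inl h0
      · rcases hx with hx | hx
        · exact Or.inl (hF0 x fun i => congrFun hx i)
        · exact Or.inr (htot x (hx0.resolve_left h0) hx)
    · rw [hD']
      rintro (h1 | h1)
      · exact hα h1
      · exact hαD h1
    · intro G hG x hx0 hx
      rw [hD'] at hx0 ⊢
      by_cases h0 : x = 0
      · exact Or.inl h0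
      · exact Or.inr (hmov G hG x (hx0.resolve_left h0) hx)
  have key := Pool.Agent.U100.MQ.master (m := 1) (n := fun _ => N + 1) σ (fun _ => F)
    (fun _ i => hσ i) (fun _ => α) (fun _ i => hfix i) (fun _ => hgood)
    ((fun g => rename (Sigma.mk (0 : Fin 1)) g) '' S)
  obtain ⟨T, hT⟩ := key
  refine ⟨T, ?_⟩
  rw [← hT]
  ext t
  rw [Set.mem_ofPred_eq, Set.mem_ofPred_eq, Set.forall_mem_image]
  have h1 : ∀ g : MvPolynomial (Fin (N + 1)) ℂ,
      eval (fun q : (Σ _ : Fin 1, Fin (N + 1)) =>
        (Pool.Agent.U100.MQ.affMap fun _ => F)^[t] (fun _ => α) q.1 q.2)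
        (rename (Sigma.mk (0 : Fin 1)) g) = eval ((cone F)^[t] α) g := by
    intro g
    rw [eval_rename, Pool.Agent.U100.MQ.aff_iter]
    rfl
  constructor
  · intro h2 g hg
    rw [h1]
    exact h2 g hg
  · intro h2 g hg
    rw [← h1]
    exact h2 hg

end Pool.Agent.Results.MP_b15c9e_ag.MovedRamification
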