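import Pool.Agent.U100.Old.MapsAlongSequences
import Pool.Agent.U100.DM.WordD
import Pool.Agent.U100.ZP.Cube

set_option autoImplicit false

/-!
# Dynamical Mordell-Lang for the symmetric powers of all compositions of rational functions of
arbitrary degrees, for almost all coefficient vectors: cubes, random orbits of thin groups, metric
sequences and equidistributed sequences
-/

namespace Pool.Agent.Results.MP_b15c9e_ag.SymmetricPowersAlongSequences

open MvPolynomial MeasureTheory Filter Topology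
open Pool.Agent.N24.RW (Walk orb words)
open Pool.Agent.N24.KM (Koksma)
open Pool.Agent.N918.EQ (Equi)

/-- Indices of the coefficients of `k` pairs of binary forms, those of the `j`-th pair being of
degree `d j`. -/
abbrev Idx (k : ℕ) (d : Fin k → ℕ) : Type := Σ j : Fin k, Fin 2 × Fin (d j + 1)

/-- The rational function `f_i` in homogeneous coordinates:
`(y₀ : y₁) ↦ (∑ v_{i,0,e} y₀^e y₁^(d i - e) : ∑ v_{i,1,e} y₀^e y₁^(d i - e))`. -/
noncomputable def ratMap {k : ℕ} {d : Fin k → ℕ} (v : Idx k d → ℤ) (i : Fin k) (y : Fin 2 → ℂ) :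
    Fin 2 → ℂ :=
  fun j => ∑ e : Fin (d i + 1), (v ⟨i, (j, e)⟩ : ℂ) * (y 0 ^ (e : ℕ) * y 1 ^ (d i - (e : ℕ)))

/-- The composition `f_w = f_(w_1) ∘ ... ∘ f_(w_m)` in homogeneous coordinates. -/
noncomputable def comp {k : ℕ} {d : Fin k → ℕ} (v : Idx k d → ℤ) (w : List (Fin k)) :
    (Fin 2 → ℂ) → Fin 2 → ℂ :=
  w.foldr (fun i g => ratMap v i ∘ g) id

/-- The coordinates in `ℙ^N = Sym^N ℙ^1` of the set `{P_1, ..., P_N}` of points
`P_i = (x_{i,0} : x_{i,1})` of `ℙ^1`: the coefficients of `∏ (x_{i,0} + x_{i,1} T)`. -/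
noncomputable def symPoint {N : ℕ} (x : Fin N → Fin 2 → ℂ) : Fin (N + 1) → ℂ :=
  fun j => (∏ i, (Polynomial.C (x i 0) + Polynomial.C (x i 1) * Polynomial.X)).coeff (j : ℕ)

/-- `F` is an endomorphism of `ℙ^N` given by forms of degree `D`. -/
def IsEndo {N : ℕ} (D : ℕ) (F : Fin (N + 1) → MvPolynomial (Fin (N + 1)) ℂ) : Prop :=
  (∀ i, (F i).IsHomogeneous D) ∧ ∀ x : Fin (N + 1) → ℂ, (∀ i, eval x (F i) = 0) → x = 0

/-- `F` is the `N`-th symmetric power `{P_1, ..., P_N} ↦ {g(P_1), ..., g(P_N)}` of the self-map `g`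
of `ℙ^1`. -/
def IsSymPower {N : ℕ} (g : (Fin 2 → ℂ) → Fin 2 → ℂ)
    (F : Fin (N + 1) → MvPolynomial (Fin (N + 1)) ℂ) : Prop :=
  ∀ x : Fin N → Fin 2 → ℂ, (fun j => eval (symPoint x) (F j)) = symPoint fun i => g (x i)

/-- The Dynamical Mordell-Lang property of the endomorphism `F` of `ℙ^N` at the point `a`: for every
closed subvariety over `ℂ` (the common zeros of a set `S` of forms) the return set is a finite union
of arithmetic progressions. -/
def DMLAt {N : ℕ} (F : Fin (N + 1) → MvPolynomial (Fin (N + 1)) ℂ) (a : Fin (N + 1) → ℂ) : Prop :=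
  ∀ S : Set (MvPolynomial (Fin (N + 1)) ℂ), (∀ g ∈ S, ∃ e : ℕ, g.IsHomogeneous e) →
    ∃ T : Finset (ℕ × ℕ),
      {n : ℕ | ∀ g ∈ S,
        eval ((fun x : Fin (N + 1) → ℂ => fun i => eval x (F i))^[n] a) g = 0} =
        {n : ℕ | ∃ q ∈ T, ∃ m : ℕ, n = q.1 * m + q.2}

/-- `a` is the point `{P_1, ..., P_N}` of `ℙ^N` for points `P_i` of `ℙ^1` over `L`. -/
def SplitOver {N : ℕ} (L : Subfield ℂ) (a : Fin (N + 1) → ℂ) : Prop :=
  ∃ x : Fin N → Fin 2 → ℂ, (∀ i, x i ≠ 0) ∧ (∀ i j, x i j ∈ L) ∧ a = symPoint x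

/-- For all `N ≥ 1` and ALL functions `f_w = f_(w_1) ∘ ... ∘ f_(w_m)`, `m ≥ 1`, in the semigroup
generated by `f_1, ..., f_k`, the symmetric power `Sym^N f_w` is an endomorphism of `ℙ^N` (given by
forms of degree `∏ d_(w_i)`) with the Dynamical Mordell-Lang property at all points `{P_1, ..., P_N}`
with `P_i` over `L`. -/
def AllDML {k : ℕ} {d : Fin k → ℕ} (L : Subfield ℂ) (v : Idx k d → ℤ) : Prop :=
  ∀ w : List (Fin k), w ≠ [] → ∀ N : ℕ, 1 ≤ N → ∃ F : Fin (N + 1) → MvPolynomial (Fin (N + 1)) ℂ,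
    IsEndo (w.map d).prod F ∧ IsSymPower (comp v w) F ∧ ∀ a, SplitOver L a → DMLAt F a

/-- The same with the Dynamical Mordell-Lang property at all complex points of `ℙ^N`. -/
def FullDML {k : ℕ} {d : Fin k → ℕ} (v : Idx k d → ℤ) : Prop :=
  ∀ w : List (Fin k), w ≠ [] → ∀ N : ℕ, 1 ≤ N → ∃ F : Fin (N + 1) → MvPolynomial (Fin (N + 1)) ℂ,
    IsEndo (w.map d).prod F ∧ IsSymPower (comp v w) F ∧ ∀ a, a ≠ 0 → DMLAt F a

/-- `E` has density zero relative to the sets `S n` of times. -/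
def NullIn (S : ℕ → Finset ℕ) (E : Set ℕ) : Prop :=
  ∀ ε : ℝ, 0 < ε → ∃ n₀ : ℕ, ∀ n : ℕ, n₀ ≤ n →
    (({t : ℕ | t ∈ S n ∧ t ∈ E}.ncard : ℕ) : ℝ) ≤ ε * (S n).card

/-- There is ONE set `E` of times of density zero such that for all `k ≥ 1`, all degrees
`d_1, ..., d_k ≥ 1` and all choices of different coordinates of the sequence `x` of integral vectors as
the coefficients of `k` rational functions `f_1, ..., f_k` of these degrees, at all but finitely many
times outside `E`: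
* for every given finitely generated field `L ⊂ ℂ`, all the symmetric powers of all the compositions
  have the Dynamical Mordell-Lang property at all `{P_1, ..., P_N}` with `P_i` over `L`;
* if all `d_j` are `2`, they have it at all complex points of `ℙ^N`. -/
def OneNullSet {r : ℕ} (S : ℕ → Finset ℕ) (x : ℕ → Fin r → ℤ) : Prop :=
  ∃ E : Set ℕ, NullIn S E ∧ ∀ k : ℕ, 1 ≤ k → ∀ d : Fin k → ℕ, (∀ j, 1 ≤ d j) →
    ∀ l : Idx k d → Fin r, Function.Injective l →
      (∀ s : Finset ℂ,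
        {t : ℕ | t ∉ E ∧ ¬ AllDML (Subfield.closure (s : Set ℂ)) (fun q => x t (l q))}.Finite) ∧
      ((∀ j, d j = 2) → {t : ℕ | t ∉ E ∧ ¬ FullDML (fun q => x t (l q))}.Finite)

open Pool.Agent.U100.DM

theorem comp_eq {k : ℕ} {d : Fin k → ℕ} (v : Idx k d → ℤ) (w : List (Fin k)) :
    comp v w = word v w := by
  induction w with
  | nil => rfl
  | cons i w ih =>
    have h : comp v (i :: w) = ratMap v i ∘ comp v w := rfl
    rw [h, ih]
    rfl

/-- From split endomorphisms of `(ℙ^1)^M` to symmetric powers. -/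
theorem allDML_of {k : ℕ} {d : Fin k → ℕ} (L : Subfield ℂ) (v : Idx k d → ℤ)
    (h : Pool.Agent.Results.MP_295d38_ag.MapsAlongSequences.AllDML L v) : AllDML L v := by
  intro w hw N hN
  have hne : ∀ i z, z ≠ 0 → rmap v i z ≠ 0 := by
    intro i z hz h0
    have h1 := (h 1 (fun _ => i) (fun _ => 0)).1 (fun q => z q.2) (fun _ h2 => hz (by
      funext j
      fin_cases j
      · exact h2.1
      · exact h2.2)) 0
    exact h1 ⟨congrFun h0 0, congrFun h0 1⟩
  obtain ⟨F, hF1, hF2⟩ := exists_phi v hne N hN w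
  refine ⟨F, hF1, ?_, ?_⟩
  · rw [comp_eq]
    exact hF2
  · rintro a ⟨x, hx1, hx2, rfl⟩ S hS
    refine dml_word v w (List.length_pos_iff.mpr hw) F hF2 x (fun S' hS' => ?_) S hS
    refine (h _ _ _).2 _ (fun q => hx2 _ _) (fun i hi => hx1 (finProdFinEquiv.symm i).1 ?_) S' hS'
    funext l
    fin_cases l
    · exact hi.1
    · exact hi.2

theorem full_of {k : ℕ} {d : Fin k → ℕ} (v : Idx k d → ℤ) (h : AllDML (⊤ : Subfield ℂ) v) :
    FullDML v := by
  intro w hw N hN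
  obtain ⟨F, h1, h2, h3⟩ := h w hw N hN
  refine ⟨F, h1, h2, fun a ha => h3 a ?_⟩
  obtain ⟨x, hx, rfl⟩ := Pool.Agent.TH838.DS.Sy.exists_form N hN a ha
  exact ⟨x, hx, fun _ _ => Subfield.mem_top _, rfl⟩

theorem oneNullSet_of {r : ℕ} {S : ℕ → Finset ℕ} {x : ℕ → Fin r → ℤ}
    (h : Pool.Agent.Results.MP_295d38_ag.MapsAlongSequences.OneNullSet S x) : OneNullSet S x := by
  obtain ⟨E, hE, hfin⟩ := h
  refine ⟨E, hE, fun k hk d hd l hl => ⟨fun s => ?_, fun h2 => ?_⟩⟩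
  · refine ((hfin k hk d hd l hl).1 s).subset ?_
    rintro t ⟨ht, hbad⟩
    exact ⟨ht, fun h => hbad (allDML_of _ _ h)⟩
  · refine ((hfin k hk d hd l hl).2 h2).subset ?_
    rintro t ⟨ht, hbad⟩
    exact ⟨ht, fun h => hbad (full_of _ (allDML_of _ _ h))⟩

open Pool.Agent.Results.MP_295d38_ag.MapsAlongSequences in
theorem cube_null {k : ℕ} {d : Fin k → ℕ} (hd : ∀ j, 1 ≤ d j) (s : Finset ℂ) :
    Pool.Agent.N24.RW.ProNull {v : Idx k d → ℤ |
      ¬ Pool.Agent.Results.MP_b15c9e_ag.SymmetricPowersAlongSequences.AllDML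
        (Subfield.closure (s : Set ℂ)) v} := by
  obtain ⟨P, hP⟩ := dml_of s
  have h1 := (Pool.Agent.N24.RW.clo (Idx k d)).2.1 _ _ (badR_null d) (badN_null hd P)
  refine (Pool.Agent.N24.RW.clo (Idx k d)).1 _ _ ?_ h1
  intro v hv
  by_contra hcon
  rw [Set.mem_union, not_or] at hcon
  exact hv (allDML_of _ _ fun N τ σ => ⟨regular_of hd v hcon.1 N τ σ, hP hd v hcon.2 N τ σ⟩)

/-- **Dynamical Mordell-Lang for the symmetric powers of all compositions of rational functions of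
arbitrary degrees, for almost all coefficient vectors.** -/
theorem result :
    -- (1) random orbits of thin groups
    (∀ r : ℕ, 2 ≤ r → ∀ (W : Walk (Fin r)) (v : Fin r → ℤ), v ≠ 0 →
      ∀ᵐ w ∂(words W.m), OneNullSet Finset.range (orb W v w)) ∧
    -- (2) metric sequences
    (∀ r : ℕ,
      (∀ (a b : Fin r → ℝ) (f : Fin r → ℕ → ℝ → ℝ), (∀ i, a i < b i) →
        (∀ i, Koksma (a i) (b i) (f i)) →
        ∀ᵐ α : Fin r → ℝ, (∀ i, α i ∈ Set.Icc (a i) (b i)) →
          OneNullSet Finset.range (fun t i => ⌊f i t (α i)⌋)) ∧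
      (∀ (a : Fin r → ℕ → ℝ) (δ : ℝ), 0 < δ → (∀ i s t, s ≠ t → δ ≤ |a i s - a i t|) →
        ∀ᵐ α : Fin r → ℝ, OneNullSet Finset.range (fun t i => ⌊a i t * α i⌋)) ∧
      (∀ (q : ℕ → ℕ) (ξ : Fin r → ℝ), Function.Injective q → (∀ i, ξ i ≠ 0) →
        ∀ᵐ α : Fin r → ℝ, (∀ i, 1 < α i) →
          OneNullSet Finset.range (fun t i => ⌊ξ i * α i ^ q t⌋))) ∧
    -- (3) equidistributed sequences, with arbitrary sets of times
    (∀ (r : ℕ) (S : ℕ → Finset ℕ) (x : ℕ → Fin r → ℤ), Equi S x → OneNullSet S x) ∧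
    -- (4) almost all coefficient vectors in cubes
    (∀ (k : ℕ) (d : Fin k → ℕ), (∀ j, 1 ≤ d j) → ∀ (s : Finset ℂ) (ε : ℝ), 0 < ε →
      ∃ H₀ : ℕ, ∀ H : ℕ, H₀ ≤ H → ∀ b : Idx k d → ℤ,
        (({v : Idx k d → ℤ | (∀ q, |v q - b q| ≤ (H : ℤ)) ∧
          ¬ AllDML (Subfield.closure (s : Set ℂ)) v}.ncard : ℕ) : ℝ) ≤
            ε * (2 * H + 1 : ℝ) ^ Fintype.card (Idx k d)) := by
  obtain ⟨h1, h2, h3⟩ := Pool.Agent.Results.MP_295d38_ag.MapsAlongSequences.result
  refine ⟨fun r hr W v hv => ?_, fun r => ⟨fun a b f hab hf => ?_, fun a δ hδ ha => ?_,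
    fun q ξ hq hξ => ?_⟩, fun r S x hx => oneNullSet_of (h3 r S x hx),
    fun k d hd s ε hε => Pool.Agent.U100.ZP.cube_of_null (cube_null hd s) ε hε⟩
  · filter_upwards [h1 r hr W v hv] with w hw
    exact oneNullSet_of hw
  · filter_upwards [(h2 r).1 a b f hab hf] with α hα hI
    exact oneNullSet_of (hα hI)
  · filter_upwards [(h2 r).2.1 a δ hδ ha] with α hα
    exact oneNullSet_of hα
  · filter_upwards [(h2 r).2.2 q ξ hq hξ] with α hα hI
    exact oneNullSet_of (hα hI)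

end Pool.Agent.Results.MP_b15c9e_ag.SymmetricPowersAlongSequences
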