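import Pool.Agent.U922.CG.Fin

/-!
# Return sets to curves of the points over a number field: a uniform logarithmic bound

Let `Φ = [f_0 : … : f_N]` be an endomorphism of `ℙ^N` of degree `d ≥ 2` with coefficients in a number field `E ⊂ ℂ` and let
`V ⊂ ℙ^N(ℂ)` be a closed subset of dimension at most one, reducible or not, over any field: the common zeros of a set `S` of
complex forms such that the homogeneous coordinate ring `ℂ[X_0, …, X_N] / (S)` has transcendence degree at most `2` over `ℂ`.

**Theorem.** There is a number `B` such that for all points `a` of `ℙ^N` over `E` the return set `{n : Φ^n(a) ∈ V}` is the union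
of finitely many infinite arithmetic progressions and of at most `B` sets `G` with the gap property: `2 m ≤ n + B` for all
`m < n` in `G`. In particular there is a union `U` of finitely many infinite arithmetic progressions in the return set such
that for all `X` at most `B (B + 2 + log_2 X)` elements `n ≤ X` of the return set do not belong to `U`. The number `B` does not
depend on `a`.

So for a point `a` over `E` whose return set contains no infinite arithmetic progression (for example every point which is not
preperiodic if no component of `V` is a periodic curve) at most `B (B + 2 + log_2 X)` of the first `X` iterates belong to `V`.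

The gap property for one irreducible curve over `E` and one starting point is `Pool.Agent.R847.HG.curve_gap` of the starting
library (helper847; no hand-in uses it). New here are the uniformity in `a`, the components and the descent from `ℂ` to `E`.

The proof: if the curve `C` is not periodic then the points `P` of `C` over `E` with `Φ^k(P) ∈ C` have logarithmic height at
most `C_1 d^k` (elimination), and `h(Φ^m(a)) ≥ c d^m` for `m ≥ n_0`, with `c` and `n_0` which do not depend on `a`, up to
finitely many preperiodic points (Northcott). So `c d^m ≤ C_1 d^(n - m)` if `m < n` are return times.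
-/

set_option autoImplicit false

open MvPolynomial

namespace Pool.Agent.Results.MP_b15c9e_ag.UniformGapForCurves

open Pool.Agent.U922.CG

theorem result {N d : ℕ} (hd : 2 ≤ d) (f : Fin (N + 1) → MvPolynomial (Fin (N + 1)) ℂ)
    (hf : ∀ i, (f i).IsHomogeneous d)
    (h0 : ∀ x : Fin (N + 1) → ℂ, (∀ i, eval x (f i) = 0) → x = 0)
    (S : Set (MvPolynomial (Fin (N + 1)) ℂ)) (hS : ∀ g ∈ S, ∃ e : ℕ, g.IsHomogeneous e)
    (hdim : Algebra.trdeg ℂ (MvPolynomial (Fin (N + 1)) ℂ ⧸ Ideal.span S) ≤ 2)
    (E : IntermediateField ℚ ℂ) [FiniteDimensional ℚ E] (hE : ∀ i μ, coeff μ (f i) ∈ E) :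
    ∃ B : ℕ, ∀ a : Fin (N + 1) → ℂ, a ≠ 0 → (∀ i, a i ∈ E) →
      (∃ (U : Set ℕ) (𝒢 : Finset (Set ℕ)), IAP U ∧ 𝒢.card ≤ B ∧ (∀ G ∈ 𝒢, Gap B G) ∧
        returnSet f S a = U ∪ ⋃ G ∈ 𝒢, G) ∧
      (∃ U ⊆ returnSet f S a, IAP U ∧
        ∀ X : ℕ, {n ∈ returnSet f S a \ U | n ≤ X}.ncard ≤ B * (B + 2 + Nat.log 2 X)) := by
  obtain ⟨B, hB⟩ := curves_C hd f hf h0 S hS hdim E hE
  exact ⟨B, fun a ha haE => ⟨hB a ha haE, Dec_count (hB a ha haE)⟩⟩

end Pool.Agent.Results.MP_b15c9e_ag.UniformGapForCurves
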